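import Mathlib
import Pool.Agent.MP_1fa864_co.Tree

/-!
Upper minus lower signed domination number of a tree of order `n` is at most `(4n - 4) / 7`.
-/

namespace Pool.Agent.Results.MP_1fa864_co.FourSevenths

open Finset

variable {V : Type*} [Fintype V] [DecidableEq V]

/-- `f : V → {-1, 1}` is a signed dominating function: `f(N[v]) ≥ 1` for every vertex `v`,
where `N[v]` is `v` together with its neighbours. -/
def IsSDF (G : SimpleGraph V) [DecidableRel G.Adj] (f : V → ℤ) : Prop :=
  (∀ v, f v = 1 ∨ f v = -1) ∧ ∀ v, 1 ≤ ∑ u ∈ insert v (G.neighborFinset v), f u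

/-- A signed dominating function `f` is minimal if no other one lies pointwise below it. -/
def IsMinimalSDF (G : SimpleGraph V) [DecidableRel G.Adj] (f : V → ℤ) : Prop :=
  IsSDF G f ∧ ¬ ∃ g : V → ℤ, IsSDF G g ∧ g ≠ f ∧ ∀ v, g v ≤ f v

/-- The signed domination number: the least weight of a signed dominating function. -/
noncomputable def signedDomNum (G : SimpleGraph V) [DecidableRel G.Adj] : ℤ :=
  sInf {w : ℤ | ∃ f : V → ℤ, IsSDF G f ∧ w = ∑ v, f v}

/-- The upper signed domination number: the largest weight of a minimal signed dominating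
function. -/
noncomputable def upperSignedDomNum (G : SimpleGraph V) [DecidableRel G.Adj] : ℤ :=
  sSup {w : ℤ | ∃ f : V → ℤ, IsMinimalSDF G f ∧ w = ∑ v, f v}

open Pool.Agent.MP_1fa864_co

theorem sum_closed (G : SimpleGraph V) [DecidableRel G.Adj] (f : V → ℤ) (v : V) :
    ∑ u ∈ insert v (G.neighborFinset v), f u = f v + ∑ u ∈ G.neighborFinset v, f u :=
  sum_insert (by simp)

omit [DecidableEq V] in
theorem weight_bounds (f : V → ℤ) (hf : ∀ v, f v = 1 ∨ f v = -1) :
    -(Fintype.card V : ℤ) ≤ ∑ v, f v ∧ ∑ v, f v ≤ Fintype.card V := by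
  constructor
  · have : ∑ _v : V, (-1 : ℤ) ≤ ∑ v, f v :=
      sum_le_sum fun v _ => by rcases hf v with h | h <;> omega
    simpa using this
  · have : ∑ v, f v ≤ ∑ _v : V, (1 : ℤ) :=
      sum_le_sum fun v _ => by rcases hf v with h | h <;> omega
    simpa using this

theorem isSDF_one (G : SimpleGraph V) [DecidableRel G.Adj] : IsSDF G fun _ => 1 := by
  refine ⟨fun _ => Or.inl rfl, fun v => ?_⟩
  rw [sum_closed]
  have : (0 : ℤ) ≤ ∑ _u ∈ G.neighborFinset v, (1 : ℤ) := sum_nonneg fun _ _ => zero_le_one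
  omega

theorem exists_signedDomNum (G : SimpleGraph V) [DecidableRel G.Adj] :
    ∃ g, IsSDF G g ∧ signedDomNum G = ∑ v, g v ∧ ∀ f, IsSDF G f → ∑ v, g v ≤ ∑ v, f v := by
  have hne : {w : ℤ | ∃ f : V → ℤ, IsSDF G f ∧ w = ∑ v, f v}.Nonempty :=
    ⟨_, _, isSDF_one G, rfl⟩
  have hbdd : BddBelow {w : ℤ | ∃ f : V → ℤ, IsSDF G f ∧ w = ∑ v, f v} := by
    refine ⟨-(Fintype.card V : ℤ), ?_⟩
    rintro w ⟨f, hf, rfl⟩
    exact (weight_bounds f hf.1).1
  obtain ⟨g, hg, hw⟩ := Int.csInf_mem hne hbdd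
  refine ⟨g, hg, hw, fun f hf => ?_⟩
  rw [← hw]
  exact csInf_le hbdd ⟨f, hf, rfl⟩

theorem exists_upperSignedDomNum (G : SimpleGraph V) [DecidableRel G.Adj] :
    ∃ f, IsMinimalSDF G f ∧ upperSignedDomNum G = ∑ v, f v := by
  obtain ⟨g, hg, -, hmin⟩ := exists_signedDomNum G
  have hgmin : IsMinimalSDF G g := by
    refine ⟨hg, ?_⟩
    rintro ⟨h, hh, hne, hle⟩
    obtain ⟨v, hv⟩ := Function.ne_iff.1 hne
    have : ∑ v, h v < ∑ v, g v :=
      sum_lt_sum (fun u _ => hle u) ⟨v, mem_univ v, lt_of_le_of_ne (hle v) hv⟩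
    exact absurd (hmin h hh) (not_le.2 this)
  have hne : {w : ℤ | ∃ f : V → ℤ, IsMinimalSDF G f ∧ w = ∑ v, f v}.Nonempty :=
    ⟨_, g, hgmin, rfl⟩
  have hbdd : BddAbove {w : ℤ | ∃ f : V → ℤ, IsMinimalSDF G f ∧ w = ∑ v, f v} := by
    refine ⟨(Fintype.card V : ℤ), ?_⟩
    rintro w ⟨f, hf, rfl⟩
    exact (weight_bounds f hf.1.1).2
  exact Int.csSup_mem hne hbdd

theorem tight_of_minimal (G : SimpleGraph V) [DecidableRel G.Adj] {f : V → ℤ}
    (hf : IsMinimalSDF G f) {v : V} (hv : f v = 1) :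
    ∃ u, (u = v ∨ G.Adj v u) ∧ f u + ∑ w ∈ G.neighborFinset u, f w ≤ 2 := by
  by_contra hcon
  push Not at hcon
  refine hf.2 ⟨Function.update f v (-1), ⟨fun u => ?_, fun u => ?_⟩, ?_, fun u => ?_⟩
  · by_cases h : u = v
    · subst h; simp
    · rw [Function.update_of_ne h]; exact hf.1.1 u
  · by_cases h : v ∈ insert u (G.neighborFinset u)
    · have h1 := sum_update_of_mem h f (-1)
      have h2 := sum_update_of_mem h f (f v)
      rw [Function.update_eq_self] at h2
      have h3 : u = v ∨ G.Adj v u := by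
        rcases mem_insert.1 h with h' | h'
        · exact Or.inl h'.symm
        · exact Or.inr ((G.mem_neighborFinset u v).1 h').symm
      have h4 := hcon u h3
      rw [← sum_closed] at h4
      omega
    · rw [sum_update_of_notMem h]
      exact hf.1.2 u
  · intro h
    have := congrFun h v
    rw [Function.update_self, hv] at this
    omega
  · by_cases h : u = v
    · subst h; rw [Function.update_self]; omega
    · rw [Function.update_of_ne h]

theorem key {G : SimpleGraph V} [DecidableRel G.Adj] (hG : G.IsTree) {f g : V → ℤ}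
    (hf : IsMinimalSDF G f) (hg : IsSDF G g) :
    7 * (∑ v, f v - ∑ v, g v) ≤ 4 * (Fintype.card V : ℤ) - 4 := by
  have hsg : ∀ h : V → ℤ, (∀ v, h v = 1 ∨ h v = -1) → ∀ v, sg (decide (h v = 1)) = h v := by
    intro h hh v
    rcases hh v with h1 | h1 <;> simp [sg, h1]
  have hind : ∀ h : V → ℤ, (∀ v, h v = 1 ∨ h v = -1) →
      ∑ v, h v = 2 * ∑ v, ind (decide (h v = 1)) - Fintype.card V := by
    intro h hh
    have : ∑ v, h v = ∑ v, (2 * ind (decide (h v = 1)) - 1) := by
      refine sum_congr rfl fun v _ => ?_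
      rcases hh v with h1 | h1 <;> simp [ind, h1]
    rw [this, sum_sub_distrib, ← mul_sum]
    simp
  have := main_bool hG (fun v => decide (g v = 1)) (fun v => decide (f v = 1))
    (fun v => by
      simp only [hsg g hg.1]
      rw [← sum_closed]; exact hg.2 v)
    (fun v => by
      simp only [hsg f hf.1.1]
      rw [← sum_closed]; exact hf.1.2 v)
    (fun v hv => by
      simp only [hsg f hf.1.1]
      exact tight_of_minimal G hf (by simpa using hv))
  rw [hind f hf.1.1, hind g hg.1]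
  linarith

/-- For every tree `T` of order `n`, `Γ_s(T) - γ_s(T) ≤ (4n - 4) / 7`. -/
theorem result {V : Type*} [Fintype V] [DecidableEq V] (T : SimpleGraph V) [DecidableRel T.Adj]
    (hT : T.IsTree) :
    ((upperSignedDomNum T : ℝ) - (signedDomNum T : ℝ)) / (Fintype.card V : ℝ) ≤
      4 / 7 - 4 / (7 * (Fintype.card V : ℝ)) := by
  obtain ⟨g, hg, hgw, -⟩ := exists_signedDomNum T
  obtain ⟨f, hf, hfw⟩ := exists_upperSignedDomNum T
  have h := key hT hf hg
  rw [← hgw, ← hfw] at h
  have h' : (7 : ℝ) * ((upperSignedDomNum T : ℝ) - (signedDomNum T : ℝ)) ≤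
      4 * (Fintype.card V : ℝ) - 4 := by exact_mod_cast h
  have := hT.nonempty
  have hn : (0 : ℝ) < Fintype.card V := by exact_mod_cast Fintype.card_pos
  rw [div_le_iff₀ hn]
  have : (4 / 7 - 4 / (7 * (Fintype.card V : ℝ))) * (Fintype.card V : ℝ) =
      (4 * (Fintype.card V : ℝ) - 4) / 7 := by field_simp
  rw [this]
  linarith

end Pool.Agent.Results.MP_1fa864_co.FourSevenths
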